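import Mathlib
import Pool.Agent.Q94.SoficData

/-! # A non-sofic monoid with sofic unit group and sofic orbit quotients -/

namespace Pool.Agent.Results.MP_3452f1_al.SoficQuotients

open Pool.Agent.Q94.Sofic

/-- The pointwise stabiliser `N_O` in the group of units of the orbit `O = m U(M)` of the right
translation action. -/
def orbitStab {M : Type*} [Monoid M] (m : M) : Subgroup Mˣ where
  carrier := {g | ∀ h : Mˣ, m * h * g = m * h}
  mul_mem' := fun {a b} ha hb h => by
    rw [Units.val_mul, ← mul_assoc, ha, hb]
  one_mem' := fun h => by rw [Units.val_one, mul_one]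
  inv_mem' := fun {a} ha h => by
    have := ha (h * a⁻¹)
    rw [Units.val_mul, ← mul_assoc] at this
    rw [← this]
    rw [mul_assoc (m * h) _ _, Units.inv_mul, mul_one]

instance {M : Type*} [Monoid M] (m : M) : (orbitStab m).Normal := ⟨by
  intro g hg k h
  have := hg (h * k)
  rw [Units.val_mul, ← mul_assoc] at this
  rw [Units.val_mul, Units.val_mul, ← mul_assoc, ← mul_assoc, this, mul_assoc (m * h),
    Units.mul_inv, mul_one]⟩

/-- the `J`-class of the identity: `{x | MxM = M}` -/
def JOne (M : Type*) [Monoid M] : Set M := {x | {w | ∃ r s : M, w = r * x * s} = Set.univ}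

theorem sofic_quotient_of_bot {M : Type*} [Monoid M] (m : M) (hS : IsSofic Mˣ)
    (h : ∀ x ∈ orbitStab m, x = 1) : IsSofic (Mˣ ⧸ orbitStab m) := by
  refine hS.of_injective (QuotientGroup.lift (orbitStab m) (MonoidHom.id Mˣ) h) ?_
  intro a b hab
  obtain ⟨a, rfl⟩ := QuotientGroup.mk_surjective a
  obtain ⟨b, rfl⟩ := QuotientGroup.mk_surjective b
  have : a = b := hab
  rw [this]

theorem sofic_quotient_of_top {M : Type*} [Monoid M] (m : M) (hS : IsSofic Mˣ)
    (h : ∀ x, x ∈ orbitStab m) : IsSofic (Mˣ ⧸ orbitStab m) := by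
  refine hS.of_injective (1 : (Mˣ ⧸ orbitStab m) →* Mˣ) ?_
  intro a b _
  obtain ⟨a, rfl⟩ := QuotientGroup.mk_surjective a
  obtain ⟨b, rfl⟩ := QuotientGroup.mk_surjective b
  exact QuotientGroup.eq.mpr (h _)

theorem units_sofic : IsSofic (Tri dat true)ˣ :=
  lamp_sofic.of_injective (Tri.unitsEquiv dat true).symm.toMonoidHom
    (Tri.unitsEquiv dat true).symm.injective

theorem quotients_sofic (m : Tri dat true) : IsSofic ((Tri dat true)ˣ ⧸ orbitStab m) := by
  cases m with
  | g x =>
    refine sofic_quotient_of_bot _ units_sofic fun y hy => ?_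
    have h1 := hy 1
    rw [Units.val_one, mul_one] at h1
    obtain ⟨w, hw⟩ := (Tri.isUnit_iff (y : Tri dat true)).mp y.isUnit
    rw [hw, Tri.g_mul_g] at h1
    have h2 : x * w = x := Tri.g.inj h1
    have h3 : w = 1 := by simpa using h2
    apply Units.ext
    rw [hw, h3]
    rfl
  | u p =>
    refine sofic_quotient_of_top _ units_sofic fun y h => ?_
    obtain ⟨w, hw⟩ := (Tri.isUnit_iff (y : Tri dat true)).mp y.isUnit
    obtain ⟨w', hw'⟩ := (Tri.isUnit_iff (h : Tri dat true)).mp h.isUnit
    rw [hw, hw', Tri.u_mul_g, Tri.u_mul_g]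
  | t c =>
    refine sofic_quotient_of_bot _ units_sofic fun y hy => ?_
    obtain ⟨w, hw⟩ := (Tri.isUnit_iff (y : Tri dat true)).mp y.isUnit
    have h1 : w = 1 := by
      apply core_trivial
      intro k
      induction c using QuotientGroup.induction_on with
      | H a =>
        have h2 := hy (Tri.unitsEquiv dat true (a * k))
        rw [Tri.unitsEquiv_val, hw, Tri.t_mul_g, Tri.t_mul_g] at h2
        have h3 := Tri.t.inj h2
        rw [MulAction.Quotient.smul_coe, MulAction.Quotient.smul_coe, QuotientGroup.eq] at h3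
        convert h3 using 1
        simp only [smul_eq_mul]
        group
    apply Units.ext
    rw [hw, h1]
    rfl
  | z =>
    refine sofic_quotient_of_top _ units_sofic fun y h => ?_
    rw [Tri.z_mul, Tri.z_mul]

/-- **The answer to Q1 is negative.**  There is a monoid `M` such that the `J`-class of the
identity is the group of units, this group is sofic, all quotients of this group by the pointwise
stabilisers of the orbits of its right translation action on `M` are sofic, and `M` is not
sofic. -/
theorem result : ∃ (M : Type) (_ : Monoid M), (∀ x ∈ JOne M, IsUnit x) ∧ IsSofic Mˣ ∧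
    (∀ m : M, IsSofic (Mˣ ⧸ orbitStab m)) ∧ ¬ IsSofic M := by
  refine ⟨Tri dat true, inferInstance, ?_, units_sofic, quotients_sofic, tri_not_sofic⟩
  intro x hx
  apply Tri.isUnit_of_J
  intro w
  have h : w ∈ {w | ∃ r s : Tri dat true, w = r * x * s} := by
    have hx' : {w | ∃ r s : Tri dat true, w = r * x * s} = Set.univ := hx
    rw [hx']
    trivial
  exact h

end Pool.Agent.Results.MP_3452f1_al.SoficQuotients
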